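import Pool.Agent.H64.BTL.Stmts

/-!
# Board `btl`, row UNI (helper52): a unipotent matrix with bounded powers is the identity
-/

set_option autoImplicit false

namespace Pool.BTL

attribute [local instance] Matrix.linftyOpNormedAddCommGroup Matrix.linftyOpNormedSpace
  Matrix.linftyOpNormedRing Matrix.linftyOpNormedAlgebra

theorem UNI_thm : UNIStmt := by
  classical
  intro n A d hd hC
  obtain ⟨C, hC⟩ := hC
  by_contra hA
  have hN : A - 1 ≠ 0 := sub_ne_zero.mpr hA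
  obtain ⟨N, hNdef⟩ : ∃ N, N = A - 1 := ⟨_, rfl⟩
  rw [← hNdef] at hN hd
  have hex : ∃ e : ℕ, N ^ e = 0 := ⟨d, hd⟩
  obtain ⟨e, he⟩ : ∃ e, e = Nat.find hex := ⟨_, rfl⟩
  have h1 : N ^ e = 0 := he ▸ Nat.find_spec hex
  have h2 : ∀ m < e, N ^ m ≠ 0 := fun m hm => Nat.find_min hex (he ▸ hm)
  have he2 : 2 ≤ e := by
    by_contra hlt
    have : e = 0 ∨ e = 1 := by omega
    rcases this with h | h
    · rw [h, pow_zero] at h1
      apply hN
      rw [← mul_one N, h1, mul_zero]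
    · rw [h, pow_one] at h1
      exact hN h1
  obtain ⟨M, hM⟩ : ∃ M, M = N ^ (e - 2) := ⟨_, rfl⟩
  have hNM : N * M ≠ 0 := by
    rw [hM, ← pow_succ']
    exact h2 _ (by omega)
  have hNNM : N * (N * M) = 0 := by
    rw [hM, ← pow_succ', ← pow_succ']
    have : e - 2 + 1 + 1 = e := by omega
    rw [this]
    exact h1
  have hA1 : A = 1 + N := by
    rw [hNdef]
    abel
  have hpow : ∀ m : ℕ, A ^ m * M = M + (m : ℂ) • (N * M) := by
    intro m
    induction m with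
    | zero => simp
    | succ m ih =>
      rw [pow_succ', mul_assoc, ih]
      rw [hA1, add_mul, one_mul, mul_add, Matrix.mul_smul, hNNM, smul_zero, add_zero]
      push_cast
      rw [add_smul, one_smul]
      abel
  have hpos : 0 < ‖N * M‖ := norm_pos_iff.mpr hNM
  have hb : ∀ m : ℕ, (m : ℝ) * ‖N * M‖ ≤ C * ‖M‖ + ‖M‖ := by
    intro m
    have h3 : (m : ℂ) • (N * M) = A ^ m * M - M := by
      rw [hpow m]
      abel
    have h4 : ‖(m : ℂ) • (N * M)‖ = (m : ℝ) * ‖N * M‖ := by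
      rw [norm_smul, Complex.norm_natCast]
    rw [← h4, h3]
    calc ‖A ^ m * M - M‖ ≤ ‖A ^ m * M‖ + ‖M‖ := norm_sub_le _ _
      _ ≤ ‖A ^ m‖ * ‖M‖ + ‖M‖ := by
        gcongr
        exact norm_mul_le _ _
      _ ≤ C * ‖M‖ + ‖M‖ := by
        gcongr
        exact hC m
  obtain ⟨m, hm⟩ := exists_nat_gt ((C * ‖M‖ + ‖M‖) / ‖N * M‖)
  rw [div_lt_iff₀ hpos] at hm
  exact absurd (hb m) (not_le.mpr hm)

end Pool.BTL
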